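import Pool.Agent.H31.PC.Targets

/-!
# MP_6e60ff_nt, board `pc_modules`: [PAK] packing
-/

set_option autoImplicit false

namespace Pool.Agent.H20.PC.PAK

open Finset MvPolynomial Pool.Agent.H31.PC Pool.Agent.H31.RZ

/-- the value of a monomial -/
def mv (x : Fin 3 → ℤ) (μ : Fin 3 →₀ ℕ) : ℤ := ∏ i, x i ^ μ i

theorem eval_Mon {e : ℕ} {g : MvPolynomial (Fin 3) ℤ} (hg : g.IsHomogeneous e) (x : Fin 3 → ℤ) :
    eval x g = ∑ μ ∈ Mon 2 e, g.coeff μ * mv x μ := by
  rw [eval_eq']
  refine Finset.sum_subset ?_ ?_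
  · intro μ hμ
    rw [mem_Mon]
    by_contra h
    exact mem_support_iff.1 hμ (hg.coeff_eq_zero h)
  · intro μ _ hμ
    rw [notMem_support_iff.1 hμ, zero_mul]

theorem abs_mv_le {e : ℕ} (x : Fin 3 → ℤ) {μ : Fin 3 →₀ ℕ} (hμ : μ ∈ Mon 2 e) :
    |mv x μ| ≤ (nm x : ℤ) ^ e := by
  have hd : μ.degree = e := mem_Mon.1 hμ
  rw [mv, Finset.abs_prod]
  calc ∏ i, |x i ^ μ i| ≤ ∏ i, (nm x : ℤ) ^ μ i := by
        refine Finset.prod_le_prod (fun i _ => abs_nonneg _) fun i _ => ?_
        rw [abs_pow]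
        exact pow_le_pow_left₀ (abs_nonneg _) (abs_le_nm x i) _
    _ = (nm x : ℤ) ^ e := by rw [Finset.prod_pow_eq_pow_sum, ← hd, Finsupp.degree_eq_sum]

theorem mv_single (x : Fin 3 → ℤ) (k : Fin 3) (e : ℕ) :
    mv x (Finsupp.single k e) = x k ^ e := by
  rw [mv, Finset.prod_eq_single k]
  · rw [Finsupp.single_eq_same]
  · intro i _ hi
    rw [Finsupp.single_eq_of_ne hi, pow_zero]
  · intro h
    exact absurd (Finset.mem_univ k) h

theorem same_cell {a b : ℤ} {L : ℕ} (hL : 1 ≤ L) (h : a / (L : ℤ) = b / (L : ℤ)) :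
    |a - b| ≤ (L : ℤ) - 1 := by
  have hL' : (0 : ℤ) < L := by exact_mod_cast hL
  have h1 := Int.emod_add_mul_ediv a L
  have h2 := Int.emod_add_mul_ediv b L
  have h3 := Int.emod_nonneg a hL'.ne'
  have h4 := Int.emod_nonneg b hL'.ne'
  have h5 := Int.emod_lt_of_pos a hL'
  have h6 := Int.emod_lt_of_pos b hL'
  rw [h] at h1
  rw [abs_le]
  constructor <;> linarith

theorem pf_PAK : T_PAK := by
  classical
  intro e V R x hx hV hyp
  obtain ⟨k, hk⟩ := exists_nm hx
  set κ : Fin 3 →₀ ℕ := Finsupp.single k e with hκ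
  have hκM : κ ∈ Mon 2 e := by
    rw [mem_Mon, hκ, Finsupp.degree_single]
  set N := NN 2 e with hN
  have hN1 : 1 ≤ N := by
    rw [hN, NN]
    exact Finset.card_pos.2 ⟨κ, hκM⟩
  have hnm : 1 ≤ nm x := nm_pos.2 hx
  obtain ⟨L, hL1, hLV, hVL⟩ : ∃ L : ℕ, 1 ≤ L ∧ N * (L - 1) < V ∧ V ≤ N * L := by
    refine ⟨(V + N - 1) / N, ?_, ?_, ?_⟩
    · rw [Nat.one_le_div_iff (by omega)]
      omega
    · have h1 : (V + N - 1) / N - 1 = (V - 1) / N := by
        have h2 : V + N - 1 = (V - 1) + N := by omega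
        rw [h2, Nat.add_div_right _ (by omega)]
        rfl
      rw [h1]
      have h3 := Nat.mul_div_le (V - 1) N
      omega
    · have h2 : V + N - 1 = (V - 1) + N := by omega
      rw [h2, Nat.add_div_right _ (by omega), Nat.mul_succ]
      have h3 := Nat.lt_mul_div_succ (V - 1) (show 0 < N by omega)
      rw [Nat.mul_succ] at h3
      omega
  set Q := 2 * R / L + 1 with hQ
  have hE : #((Mon 2 e).erase κ) = N - 1 := by
    rw [Finset.card_erase_of_mem hκM, hN, NN]
  have hcard : #(Lam e R x) ≤ Q ^ (N - 1) := by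
    have h2 : #(Fintype.piFinset fun _ : ((Mon 2 e).erase κ : Finset _) =>
        Finset.Icc (0 : ℤ) ((2 * R / L : ℕ) : ℤ)) = Q ^ (N - 1) := by
      rw [Fintype.card_piFinset]
      simp only [Int.card_Icc, Finset.prod_const, Finset.card_univ, Fintype.card_coe, hE]
      rfl
    rw [← h2]
    refine Finset.card_le_card_of_injOn
      (fun g (μ : ((Mon 2 e).erase κ : Finset _)) => (g.coeff μ.1 + R) / (L : ℤ)) ?_ ?_
    · intro g hg
      rw [Finset.mem_coe, mem_Lam] at hg
      rw [Finset.mem_coe, Fintype.mem_piFinset]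
      intro μ
      have h3 := abs_le.1 (hg.1.2 μ.1)
      rw [Finset.mem_Icc]
      constructor
      · exact Int.ediv_nonneg (by linarith) (by positivity)
      · push_cast
        exact Int.ediv_le_ediv (by exact_mod_cast hL1) (by linarith)
    · intro g hg g' hg' he
      rw [Finset.mem_coe, mem_Lam] at hg hg'
      by_contra hne
      have hhom : (g - g').IsHomogeneous e := hg.1.1.sub hg'.1.1
      have hev : eval x (g - g') = 0 := by
        rw [map_sub, hg.2, hg'.2, sub_zero]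
      obtain ⟨μ, hμ⟩ := hyp (g - g') hhom (sub_ne_zero.2 hne) hev
      have hδ : ∀ ν ∈ (Mon 2 e).erase κ, |(g - g').coeff ν| ≤ (L : ℤ) - 1 := by
        intro ν hν
        have h4 := congrFun he ⟨ν, hν⟩
        have h5 := same_cell hL1 h4
        rw [coeff_sub]
        have h6 : g.coeff ν + (R : ℤ) - (g'.coeff ν + R) = g.coeff ν - g'.coeff ν := by ring
        rw [h6] at h5
        exact h5
      have hL0 : (0 : ℤ) ≤ (L : ℤ) - 1 := by
        have : (1 : ℤ) ≤ L := by exact_mod_cast hL1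
        linarith
      have hLV' : (N : ℤ) * ((L : ℤ) - 1) < V := by
        have : ((N * (L - 1) : ℕ) : ℤ) < V := by exact_mod_cast hLV
        rw [Nat.cast_mul, Nat.cast_sub hL1, Nat.cast_one] at this
        exact this
      have hN1' : (1 : ℤ) ≤ N := by exact_mod_cast hN1
      have hκb : |(g - g').coeff κ| ≤ ((N : ℤ) - 1) * ((L : ℤ) - 1) := by
        have h7 := eval_Mon hhom x
        rw [hev, ← Finset.add_sum_erase _ _ hκM, hκ, mv_single] at h7
        have hxk : 0 < |x k ^ e| := by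
          rw [abs_pow, hk]
          have : (0 : ℤ) < (nm x : ℤ) := by exact_mod_cast hnm
          positivity
        have h8 : |(g - g').coeff κ| * |x k ^ e| ≤
            (((N : ℤ) - 1) * ((L : ℤ) - 1)) * |x k ^ e| := by
          rw [← abs_mul]
          have h9 : (g - g').coeff κ * x k ^ e =
              -∑ ν ∈ (Mon 2 e).erase κ, (g - g').coeff ν * mv x ν := by
            rw [hκ]
            linarith
          rw [h9, abs_neg]
          refine (Finset.abs_sum_le_sum_abs _ _).trans ?_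
          have h10 : ∀ ν ∈ (Mon 2 e).erase κ, |(g - g').coeff ν * mv x ν| ≤
              ((L : ℤ) - 1) * |x k ^ e| := by
            intro ν hν
            rw [abs_mul, abs_pow, hk]
            exact mul_le_mul (hδ ν hν) (abs_mv_le x (Finset.mem_of_mem_erase hν))
              (abs_nonneg _) hL0
          refine (Finset.sum_le_sum h10).trans ?_
          rw [Finset.sum_const, hE, nsmul_eq_mul, Nat.cast_sub hN1, Nat.cast_one, mul_assoc]
        exact le_of_mul_le_mul_right h8 hxk
      by_cases hμκ : μ = κ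
      · rw [hμκ] at hμ
        nlinarith
      · by_cases hμM : μ ∈ Mon 2 e
        · have h11 := hδ μ (Finset.mem_erase.2 ⟨hμκ, hμM⟩)
          nlinarith
        · rw [hhom.coeff_eq_zero fun h => hμM (mem_Mon.2 h), abs_zero] at hμ
          have : (1 : ℤ) ≤ V := by exact_mod_cast hV
          linarith
  have hQV : Q * V ≤ N * (2 * R + 1) + V := by
    have h1 : 2 * R / L * V ≤ 2 * R / L * (N * L) := Nat.mul_le_mul_left _ hVL
    have h2 : 2 * R / L * (N * L) = N * (2 * R / L * L) := by ring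
    have h3 : 2 * R / L * L ≤ 2 * R := Nat.div_mul_le_self _ _
    have h4 : N * (2 * R / L * L) ≤ N * (2 * R + 1) := Nat.mul_le_mul_left _ (by omega)
    rw [hQ, Nat.add_mul, one_mul]
    omega
  calc #(Lam e R x) * V ^ (N - 1) ≤ Q ^ (N - 1) * V ^ (N - 1) := Nat.mul_le_mul_right _ hcard
    _ = (Q * V) ^ (N - 1) := (mul_pow _ _ _).symm
    _ ≤ (N * (2 * R + 1) + V) ^ (N - 1) := Nat.pow_le_pow_left hQV _

end Pool.Agent.H20.PC.PAK
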