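import Pool.Agent.H31.PC.Targets
import Pool.Agent.H31.PC.Alg

/-!
# MP_6e60ff_nt, board `pc_modules`: [TR] the height of a form after a linear substitution
-/

set_option autoImplicit false

namespace Pool.Agent.H20.PC.TR

open Finset MvPolynomial Pool.Agent.H31.PC Pool.Agent.H31.RZ

/-- `Q` is a majorant of `P` -/
def Maj (P : MvPolynomial (Fin 3) ℤ) (Q : MvPolynomial (Fin 3) ℕ) : Prop :=
  ∀ ν, |P.coeff ν| ≤ ((Q.coeff ν : ℕ) : ℤ)

theorem maj_one : Maj 1 1 := by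
  classical
  intro ν
  rw [coeff_one, coeff_one]
  split_ifs <;> simp

theorem maj_mul {P P' : MvPolynomial (Fin 3) ℤ} {Q Q' : MvPolynomial (Fin 3) ℕ}
    (h : Maj P Q) (h' : Maj P' Q') : Maj (P * P') (Q * Q') := by
  classical
  intro ν
  rw [coeff_mul, coeff_mul, Nat.cast_sum]
  refine (Finset.abs_sum_le_sum_abs _ _).trans (Finset.sum_le_sum fun p _ => ?_)
  rw [abs_mul, Nat.cast_mul]
  exact mul_le_mul (h _) (h' _) (abs_nonneg _) (Nat.cast_nonneg _)

theorem maj_pow {P : MvPolynomial (Fin 3) ℤ} {Q : MvPolynomial (Fin 3) ℕ}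
    (h : Maj P Q) (k : ℕ) : Maj (P ^ k) (Q ^ k) := by
  induction k with
  | zero =>
    rw [pow_zero, pow_zero]
    exact maj_one
  | succ k ih =>
    rw [pow_succ, pow_succ]
    exact maj_mul ih h

/-- the majorant of the linear forms -/
noncomputable def LK (K : ℕ) : MvPolynomial (Fin 3) ℕ := ∑ j, C K * X j

theorem maj_lin {K : ℕ} (b : Fin 3 → ℤ) (hb : ∀ j, |b j| ≤ K) :
    Maj (∑ j, C (b j) * X j) (LK K) := by
  classical
  intro ν
  rw [LK, coeff_sum, coeff_sum, Nat.cast_sum]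
  refine (Finset.abs_sum_le_sum_abs _ _).trans (Finset.sum_le_sum fun j _ => ?_)
  rw [coeff_C_mul, coeff_C_mul, coeff_X', coeff_X']
  split_ifs
  · simpa using hb j
  · simp

theorem coeff_le_one (p : MvPolynomial (Fin 3) ℕ) (μ : Fin 3 →₀ ℕ) :
    p.coeff μ ≤ eval (fun _ => 1) p := by
  classical
  rw [eval_eq]
  simp only [one_pow, Finset.prod_const_one, mul_one]
  by_cases hμ : μ ∈ p.support
  · exact Finset.single_le_sum (f := fun μ => p.coeff μ) (fun _ _ => Nat.zero_le _) hμ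
  · rw [notMem_support_iff.1 hμ]
    exact Nat.zero_le _

theorem eval_LK (K : ℕ) : eval (fun _ => 1) (LK K) = 3 * K := by
  rw [LK, map_sum]
  simp [Fin.sum_univ_three]

theorem pf_TR : T_TR := by
  intro d K R A f hA hf
  obtain ⟨hh, hc⟩ := mem_FF.1 hf
  rw [mem_FF]
  refine ⟨tr_hom hh, fun ν => ?_⟩
  have hsub : f.support ⊆ Mon 2 d := by
    intro μ hμ
    rw [mem_Mon]
    by_contra h
    exact mem_support_iff.1 hμ (hh.coeff_eq_zero h)
  have h0 : tr A f = ∑ μ ∈ f.support, C (f.coeff μ) *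
      ∏ i, (∑ j, C (A i j) * X j : MvPolynomial (Fin 3) ℤ) ^ μ i := by
    rw [tr, aeval_def, eval₂_eq']
    rfl
  rw [h0, coeff_sum]
  refine (Finset.abs_sum_le_sum_abs _ _).trans ?_
  have h1 : ∀ μ ∈ f.support, |(C (f.coeff μ) *
      ∏ i, (∑ j, C (A i j) * X j : MvPolynomial (Fin 3) ℤ) ^ μ i).coeff ν| ≤
      (R : ℤ) * (3 * K : ℕ) ^ d := by
    intro μ hμ
    rw [coeff_C_mul, abs_mul]
    refine mul_le_mul (hc μ) ?_ (abs_nonneg _) (Nat.cast_nonneg _)
    have hm : Maj (∏ i, (∑ j, C (A i j) * X j : MvPolynomial (Fin 3) ℤ) ^ μ i)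
        (∏ i, (LK K) ^ μ i) := by
      rw [Fin.prod_univ_three, Fin.prod_univ_three]
      exact maj_mul (maj_mul (maj_pow (maj_lin _ (hA 0)) _) (maj_pow (maj_lin _ (hA 1)) _))
        (maj_pow (maj_lin _ (hA 2)) _)
    refine (hm ν).trans ?_
    have h2 := coeff_le_one (∏ i, (LK K) ^ μ i) ν
    have hd : μ.degree = d := mem_Mon.1 (hsub hμ)
    have h3 : eval (fun _ => 1) (∏ i, (LK K) ^ μ i) = (3 * K) ^ d := by
      rw [map_prod]
      simp only [map_pow, eval_LK]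
      rw [Finset.prod_pow_eq_pow_sum, ← hd, Finsupp.degree_eq_sum]
    rw [h3] at h2
    exact_mod_cast h2
  refine (Finset.sum_le_sum h1).trans ?_
  rw [Finset.sum_const, nsmul_eq_mul]
  have h4 : #f.support ≤ NN 2 d := Finset.card_le_card hsub
  push_cast
  have h5 : ((#f.support : ℕ) : ℤ) ≤ (NN 2 d : ℕ) := by exact_mod_cast h4
  calc ((#f.support : ℕ) : ℤ) * ((R : ℤ) * (3 * (K : ℤ)) ^ d)
      ≤ ((NN 2 d : ℕ) : ℤ) * ((R : ℤ) * (3 * (K : ℤ)) ^ d) :=
        mul_le_mul_of_nonneg_right h5 (by positivity)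
    _ = _ := by ring

end Pool.Agent.H20.PC.TR
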